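import Mathlib
import Pool.Agent.P8H13.CA.One
import Pool.Agent.TH891.SG.Gal4
import Pool.Agent.TH891.SG.Cnt3

/-!
# Dense sets of prime tuples with integer shifts contain narrow progressions (helper13)
-/

set_option autoImplicit false

namespace Pool.Agent.P8H13.DT

open Finset Filter Topology
open Pool.Agent.H387R2.Uni (CT locT nuT Adm)
open Pool.Agent.Y840.PT

/-- the smallest shift -/
def lo {l : ℕ} (a : Fin (l + 1) → ℤ) : ℤ := (univ : Finset (Fin (l + 1))).inf' univ_nonempty a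

theorem lo_le {l : ℕ} (a : Fin (l + 1) → ℤ) (i : Fin (l + 1)) : lo a ≤ a i :=
  inf'_le _ (mem_univ i)

theorem lo_att {l : ℕ} (a : Fin (l + 1) → ℤ) : ∃ i, lo a = a i := by
  obtain ⟨i, -, h⟩ := exists_mem_eq_inf' (univ_nonempty : (univ : Finset (Fin (l + 1))).Nonempty) a
  exact ⟨i, h⟩

/-- the shifts, normalised -/
def sh {l : ℕ} (a : Fin (l + 1) → ℤ) : Finset ℕ := univ.image (fun i => (a i - lo a).toNat)

theorem sh_cast {l : ℕ} (a : Fin (l + 1) → ℤ) (i : Fin (l + 1)) : (((a i - lo a).toNat : ℕ) : ℤ) = a i - lo a :=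
  Int.toNat_of_nonneg (by linarith [lo_le a i])

theorem sh_card {l : ℕ} (a : Fin (l + 1) → ℤ) (ha : Function.Injective a) : (sh a).card = l + 1 := by
  unfold sh
  rw [card_image_of_injective, card_univ, Fintype.card_fin]
  intro i j h
  have h1 : (((a i - lo a).toNat : ℕ) : ℤ) = (((a j - lo a).toNat : ℕ) : ℤ) := by exact_mod_cast h
  rw [sh_cast, sh_cast] at h1
  exact ha (by linarith)

theorem sh_shift {l : ℕ} (a : Fin (l + 1) → ℤ) (u : ℤ) (hu : ∀ i, 0 ≤ a i + u) :
    univ.image (fun i => (a i + u).toNat) = (sh a).image (· + (lo a + u).toNat) := by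
  unfold sh
  rw [image_image]
  congr 1
  funext i
  show (a i + u).toNat = (a i - lo a).toNat + (lo a + u).toNat
  obtain ⟨j, hj⟩ := lo_att a
  have h1 := hu j
  have h2 := lo_le a i
  rw [← hj] at h1
  omega

theorem CT_shift {l : ℕ} (a : Fin (l + 1) → ℤ) (u : ℤ) (hu : ∀ i, 0 ≤ a i + u) :
    CT (univ.image (fun i => (a i + u).toNat)) = CT (sh a) := by
  rw [sh_shift a u hu]
  exact Pool.Agent.TH891.SG.CT_add _ _

/-- few prime translates of a set which is not admissible -/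
theorem Pts_small {T : Finset ℕ} (hT : ¬ Adm T) (x : ℝ) : (Pts x T).card ≤ T.card := by
  classical
  unfold Pool.Agent.H387R2.Uni.Adm at hT
  push Not at hT
  obtain ⟨p, hp, hpT⟩ := hT
  have hle : p ≤ T.card := hpT.trans card_image_le
  have hsub : Pts x T ⊆ Icc 1 T.card := by
    intro n hn
    unfold Pts at hn
    rw [mem_filter, mem_Icc] at hn
    obtain ⟨⟨h1, -⟩, h2⟩ := hn
    rw [mem_Icc]
    refine ⟨h1, ?_⟩
    -- all classes are met
    have hall : T.image (· % p) = range p := by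
      apply eq_of_subset_of_card_le
      · intro y hy
        obtain ⟨t, -, rfl⟩ := mem_image.1 hy
        exact mem_range.2 (Nat.mod_lt _ hp.pos)
      · rw [card_range]
        exact hpT
    have h3 : (p - n % p) % p ∈ T.image (· % p) := by
      rw [hall, mem_range]
      exact Nat.mod_lt _ hp.pos
    obtain ⟨t, ht, ht2⟩ := mem_image.1 h3
    have ht2 : t % p = (p - n % p) % p := ht2
    have h4 : p ∣ n + t := by
      have h5 : (n + t) % p = 0 := by
        rw [Nat.add_mod, ht2]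
        have h6 : n % p < p := Nat.mod_lt _ hp.pos
        by_cases h7 : n % p = 0
        · rw [h7]; simp
        · have h8 : (p - n % p) % p = p - n % p := Nat.mod_eq_of_lt (by omega)
          rw [h8]
          have h9 : n % p + (p - n % p) = p := by omega
          rw [h9, Nat.mod_self]
      exact Nat.dvd_of_mod_eq_zero h5
    have h5 := (Nat.prime_dvd_prime_iff_eq hp (h2 t ht)).1 h4
    omega
  have := card_le_card hsub
  rwa [Nat.card_Icc, Nat.add_sub_cancel] at this

/-- every set of primes `p ≤ x` with all `p + a i` prime of positive proportion contains narrow progressions -/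
theorem tup (l m : ℕ) (ρ : ℝ) (hρ : 0 < ρ) : ∃ B x₀ : ℕ, ∀ x : ℕ, x₀ ≤ x →
    ∀ a : Fin (l + 1) → ℤ, Function.Injective a → a 0 = 0 → ∀ U : Finset ℕ,
    (∀ p ∈ U, p ≤ x ∧ ∀ i, ((p : ℤ) + a i).toNat.Prime) →
    ρ * ((CT (sh a) + 1) * (x / Real.log x ^ (l + 1))) < (U.card : ℝ) →
    ∃ b D : ℕ, 1 ≤ D ∧ (D : ℝ) ≤ Real.log x ^ B ∧ ∀ j < m, b + j * D ∈ U := by
  classical
  obtain ⟨B, x₀, h⟩ := Pool.Agent.P8H13.CA.one_U (l + 1) (m + 1) ρ hρ
  have hev : ∀ᶠ x : ℕ in atTop, ((l + 1 : ℕ) : ℝ) ≤ ρ * ((x : ℝ) / Real.log x ^ (l + 1)) := by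
    have h1 : Tendsto (fun x : ℝ => x / Real.log x ^ (l + 1)) atTop atTop := by
      have h2 := Pool.Agent.Y840.PT.sqrt_small (l + 1) 1 one_pos
      refine tendsto_atTop_mono' atTop ?_ (Real.tendsto_sqrt_atTop)
      filter_upwards [h2] with x hx
      rw [one_mul] at hx
      exact hx
    have h3 := ((h1.comp (tendsto_natCast_atTop_atTop (R := ℝ))).const_mul_atTop hρ).eventually_ge_atTop
      ((l + 1 : ℕ) : ℝ)
    exact h3
  obtain ⟨x₁, hx₁⟩ := eventually_atTop.1 hev
  refine ⟨B, max ⌈x₀⌉₊ x₁, fun x hx a ha ha0 U hU hcard => ?_⟩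
  have hxa : x₀ ≤ x := (Nat.le_ceil _).trans (by exact_mod_cast (le_max_left _ _).trans hx)
  have hxb := hx₁ x ((le_max_right _ _).trans hx)
  have hlo0 : lo a ≤ 0 := by rw [← ha0]; exact lo_le a 0
  obtain ⟨i0, hi0⟩ := lo_att a
  have hpos : ∀ p ∈ U, 2 ≤ (p : ℤ) + lo a := by
    intro p hp
    have h1 := ((hU p hp).2 i0).two_le
    rw [hi0]
    omega
  obtain ⟨V, hV⟩ : ∃ V : Finset ℕ, V = U.image (fun p : ℕ => ((p : ℤ) + lo a).toNat) := ⟨_, rfl⟩
  have hVc : V.card = U.card := by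
    rw [hV]
    apply card_image_of_injOn
    intro p hp q hq hpq
    have h1 := hpos p (mem_coe.1 hp)
    have h2 := hpos q (mem_coe.1 hq)
    have h3 : ((p : ℤ) + lo a).toNat = ((q : ℤ) + lo a).toNat := hpq
    omega
  have hVP : V ⊆ Pts (x : ℝ) (sh a) := by
    intro n hn
    rw [hV, mem_image] at hn
    obtain ⟨p, hp, rfl⟩ := hn
    have h1 := hpos p hp
    obtain ⟨h2, h3⟩ := hU p hp
    unfold Pts
    rw [mem_filter, mem_Icc, Nat.floor_natCast]
    refine ⟨⟨by omega, by omega⟩, fun t ht => ?_⟩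
    unfold sh at ht
    obtain ⟨i, -, rfl⟩ := mem_image.1 ht
    have h4 := h3 i
    have h5 := lo_le a i
    have h6 : ((p : ℤ) + lo a).toNat + (a i - lo a).toNat = ((p : ℤ) + a i).toNat := by omega
    rw [h6]
    exact h4
  have hxq : (0 : ℝ) ≤ (x : ℝ) / Real.log x ^ (l + 1) := by positivity
  by_cases hadm : Adm (sh a)
  · have hCT := (Pool.Agent.TH891.SG.CT_pos_iff (sh a)).2 hadm
    obtain ⟨b, D, hD1, hD2, hD3⟩ := h x hxa (sh a) (sh_card a ha) hCT V hVP (by
      rw [hVc]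
      refine le_trans ?_ hcard.le
      refine mul_le_mul_of_nonneg_left ?_ hρ.le
      exact mul_le_mul_of_nonneg_right (by linarith) hxq)
    refine ⟨b + (-lo a).toNat, D, hD1, hD2, fun j hj => ?_⟩
    have h1 := hD3 j (by omega)
    rw [hV, mem_image] at h1
    obtain ⟨p, hp, hp2⟩ := h1
    have h2 := hpos p hp
    have h3 : ((p : ℤ) + lo a).toNat = b + j * D := hp2
    have h4 : p = b + (-lo a).toNat + j * D := by omega
    rw [← h4]
    exact hp
  · exfalso
    have h1 := (card_le_card hVP).trans (Pts_small hadm (x : ℝ))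
    rw [hVc, sh_card a ha] at h1
    have h2 : (U.card : ℝ) ≤ ((l + 1 : ℕ) : ℝ) := by exact_mod_cast h1
    have h3 : 0 ≤ CT (sh a) := Pool.Agent.H387R2.Uni.CT_nonneg _
    have h4 : ρ * ((x : ℝ) / Real.log x ^ (l + 1)) ≤ ρ * ((CT (sh a) + 1) * (x / Real.log x ^ (l + 1))) := by
      refine mul_le_mul_of_nonneg_left ?_ hρ.le
      nlinarith
    linarith

end Pool.Agent.P8H13.DT
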