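import Mathlib
import Pool.Agent.P8H13.DT.Nrm

/-!
# The average of the singular series over vectors of shifts (helper13)
-/

set_option autoImplicit false

namespace Pool.Agent.P8H13.DT

open Finset Filter Topology
open Pool.Agent.H387R2.Uni (CT locT nuT Adm)

theorem avg (l : ℕ) : ∃ C : ℝ, 0 < C ∧ ∀ H : ℕ, 1 ≤ H → ∀ S : Finset (Fin (l + 1) → ℤ),
    (∀ a ∈ S, Function.Injective a ∧ a 0 = 0 ∧ ∀ i, |a i| ≤ H) →
    ∑ a ∈ S, CT (sh a) ≤ C * (H : ℝ) ^ l := by
  classical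
  obtain ⟨C, hC, h⟩ := Pool.Agent.TH891.SG.CT_avg l
  refine ⟨((l + 1 : ℕ) : ℝ) ^ (l + 1) * (3 * (3 * (1 + C)) ^ l), by positivity, fun H hH S hS => ?_⟩
  have hHr : (0 : ℝ) < H := by exact_mod_cast hH
  obtain ⟨G, hG⟩ : ∃ G : ℕ × (Fin (l + 1) → ℤ) → Finset ℕ,
    G = fun z => univ.image (fun i => (z.2 i + ((H + z.1 : ℕ) : ℤ)).toNat) := ⟨_, rfl⟩
  obtain ⟨P, hP⟩ : ∃ P : Finset (Finset ℕ), P = (range (3 * H)).powersetCard (l + 1) := ⟨_, rfl⟩
  have hnn : ∀ z ∈ range H ×ˢ S, ∀ i, 0 ≤ z.2 i + ((H + z.1 : ℕ) : ℤ) := by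
    intro z hz i
    obtain ⟨-, h2⟩ := mem_product.1 hz
    have h3 := abs_le.1 ((hS _ h2).2.2 i)
    push_cast
    have : (0 : ℤ) ≤ z.1 := Nat.cast_nonneg _
    linarith [h3.1]
  have hmaps : ∀ z ∈ range H ×ˢ S, G z ∈ P := by
    intro z hz
    have h0 := hnn z hz
    obtain ⟨h1, h2⟩ := mem_product.1 hz
    obtain ⟨h3, -, h5⟩ := hS _ h2
    rw [hP, mem_powersetCard, hG]
    refine ⟨?_, ?_⟩
    · intro y hy
      obtain ⟨i, -, rfl⟩ := mem_image.1 hy
      have h6 := abs_le.1 (h5 i)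
      have h7 := mem_range.1 h1
      rw [mem_range]
      push_cast
      omega
    · show (univ.image (fun i => (z.2 i + ((H + z.1 : ℕ) : ℤ)).toNat)).card = l + 1
      rw [card_image_of_injective, card_univ, Fintype.card_fin]
      intro i j hij
      have h6 : (z.2 i + ((H + z.1 : ℕ) : ℤ)).toNat = (z.2 j + ((H + z.1 : ℕ) : ℤ)).toNat := hij
      have h7 := h0 i
      have h8 := h0 j
      apply h3
      omega
  have hcard : ∀ T ∈ P, (((range H ×ˢ S).filter (fun z => G z = T)).card : ℝ) ≤ ((l + 1 : ℕ) : ℝ) ^ (l + 1) := by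
    intro T hT
    rw [hP, mem_powersetCard] at hT
    have h1 : ((range H ×ˢ S).filter (fun z => G z = T)).card ≤
        (Fintype.piFinset (fun _ : Fin (l + 1) => T)).card := by
      apply card_le_card_of_injOn (fun z : ℕ × (Fin (l + 1) → ℤ) => fun i => (z.2 i + ((H + z.1 : ℕ) : ℤ)).toNat)
      · intro z hz
        rw [mem_coe, mem_filter] at hz
        rw [mem_coe, Fintype.mem_piFinset]
        intro i
        rw [← hz.2, hG]
        exact mem_image.2 ⟨i, mem_univ _, rfl⟩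
      · intro z hz w hw hzw
        rw [mem_coe, mem_filter] at hz hw
        have h2 := hnn z hz.1
        have h3 := hnn w hw.1
        have h4 : ∀ i, (z.2 i + ((H + z.1 : ℕ) : ℤ)).toNat = (w.2 i + ((H + w.1 : ℕ) : ℤ)).toNat := fun i => congrFun hzw i
        have h5 := (hS _ (mem_product.1 hz.1).2).2.1
        have h6 := (hS _ (mem_product.1 hw.1).2).2.1
        have h7 : z.1 = w.1 := by
          have h8 := h4 0
          rw [h5, h6] at h8
          omega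
        refine Prod.ext h7 (funext fun i => ?_)
        have h8 := h4 i
        have h9 := h2 i
        have h10 := h3 i
        rw [h7] at h8 h9
        omega
    rw [Fintype.card_piFinset, prod_const, card_univ, Fintype.card_fin, hT.2] at h1
    exact_mod_cast h1
  have hsum : (H : ℝ) * ∑ a ∈ S, CT (sh a) = ∑ z ∈ range H ×ˢ S, CT (G z) := by
    rw [sum_product]
    have h1 : ∀ u ∈ range H, ∑ a ∈ S, CT (G (u, a)) = ∑ a ∈ S, CT (sh a) := by
      intro u hu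
      refine sum_congr rfl fun a ha => ?_
      rw [hG]
      exact CT_shift a ((H + u : ℕ) : ℤ) (hnn (u, a) (mem_product.2 ⟨hu, ha⟩))
    rw [sum_congr rfl h1, sum_const, card_range, nsmul_eq_mul]
  have h1 : ∑ z ∈ range H ×ˢ S, CT (G z) ≤ ((l + 1 : ℕ) : ℝ) ^ (l + 1) * ∑ T ∈ P, CT T := by
    rw [← sum_fiberwise_of_maps_to hmaps, mul_sum]
    refine sum_le_sum fun T hT => ?_
    have h2 : ∑ z ∈ (range H ×ˢ S).filter (fun z => G z = T), CT (G z) =
        (((range H ×ˢ S).filter (fun z => G z = T)).card : ℝ) * CT T := by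
      rw [← nsmul_eq_mul, ← sum_const]
      refine sum_congr rfl fun z hz => ?_
      rw [(mem_filter.1 hz).2]
    rw [h2]
    exact mul_le_mul_of_nonneg_right (hcard T hT) (Pool.Agent.H387R2.Uni.CT_nonneg T)
  have h2 : ∑ T ∈ P, CT T ≤ (3 * H : ℝ) * ((1 + C) * (3 * H)) ^ l := by
    have h3 := h (3 * H) (by omega)
    rw [← hP] at h3
    refine h3.trans ?_
    push_cast
    have h4 : (1 : ℝ) ≤ 3 * H := by
      have : (1 : ℝ) ≤ H := by exact_mod_cast hH
      linarith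
    have h5 : (3 * H : ℝ) ^ (1 / 4 : ℝ) ≤ 3 * H := by
      calc (3 * H : ℝ) ^ (1 / 4 : ℝ) ≤ (3 * H : ℝ) ^ (1 : ℝ) :=
            Real.rpow_le_rpow_of_exponent_le h4 (by norm_num)
        _ = _ := Real.rpow_one _
    have h6 : (3 * H + C * (3 * H : ℝ) ^ (1 / 4 : ℝ)) ^ l ≤ ((1 + C) * (3 * H)) ^ l := by
      apply pow_le_pow_left₀ (by positivity)
      have := mul_le_mul_of_nonneg_left h5 hC.le
      linarith
    have h7 : (1 : ℝ) ≤ ((l + 1).factorial : ℝ) := by exact_mod_cast Nat.factorial_pos _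
    calc (3 * H : ℝ) * (3 * H + C * (3 * H : ℝ) ^ (1 / 4 : ℝ)) ^ l / ((l + 1).factorial : ℝ)
        ≤ (3 * H : ℝ) * (3 * H + C * (3 * H : ℝ) ^ (1 / 4 : ℝ)) ^ l := div_le_self (by positivity) h7
      _ ≤ _ := mul_le_mul_of_nonneg_left h6 (by positivity)
  have h3 : (H : ℝ) * ∑ a ∈ S, CT (sh a) ≤
      H * (((l + 1 : ℕ) : ℝ) ^ (l + 1) * (3 * (3 * (1 + C)) ^ l) * (H : ℝ) ^ l) := by
    rw [hsum]
    refine h1.trans ((mul_le_mul_of_nonneg_left h2 (by positivity)).trans (le_of_eq ?_))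
    have e1 : ((1 + C) * (3 * (H : ℝ))) ^ l = (3 * (1 + C)) ^ l * (H : ℝ) ^ l := by
      rw [← mul_pow]
      ring
    rw [e1]
    ring
  exact le_of_mul_le_mul_left h3 hHr

/-- few vectors of shifts with a large singular series -/
theorem few_big (l : ℕ) : ∃ C : ℝ, 0 < C ∧ ∀ A : ℝ, 0 < A → ∀ H : ℕ, 1 ≤ H → ∀ S : Finset (Fin (l + 1) → ℤ),
    (∀ a ∈ S, Function.Injective a ∧ a 0 = 0 ∧ (∀ i, |a i| ≤ H) ∧ A < CT (sh a)) →
    (S.card : ℝ) ≤ C / A * (H : ℝ) ^ l := by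
  obtain ⟨C, hC, h⟩ := avg l
  refine ⟨C, hC, fun A hA H hH S hS => ?_⟩
  have h1 := h H hH S (fun a ha => ⟨(hS a ha).1, (hS a ha).2.1, (hS a ha).2.2.1⟩)
  have h2 : (S.card : ℝ) * A ≤ ∑ a ∈ S, CT (sh a) := by
    rw [← nsmul_eq_mul]
    exact card_nsmul_le_sum _ _ _ fun a ha => (hS a ha).2.2.2.le
  rw [div_mul_eq_mul_div, le_div_iff₀ hA]
  exact h2.trans h1

end Pool.Agent.P8H13.DT
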